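import Mathlib
import Pool.Agent.Helper21.SR.St

/-!
# SR: module RICH (lines rich in a cartesian product)
-/

namespace Pool.Agent.Helper7.SR

open Finset Pool.Agent.Helper21.SR

/-- Two different points determine the line. -/
private lemma count_le (L : Finset (ℝ × ℝ)) (P : Finset ((ℝ × ℝ) × (ℝ × ℝ)))
    (Q : ℝ × ℝ → Finset (ℝ × ℝ))
    (h : ∀ l ∈ L, ∀ q ∈ Q l, q.1 ≠ q.2 ∧ (q, (l.1 * q.1 + l.2, l.1 * q.2 + l.2)) ∈ P) :
    ∑ l ∈ L, #(Q l) ≤ #P := by
  rw [← Finset.card_sigma]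
  refine Finset.card_le_card_of_injOn
    (fun x : (_ : ℝ × ℝ) × (ℝ × ℝ) =>
      (x.2, (x.1.1 * x.2.1 + x.1.2, x.1.1 * x.2.2 + x.1.2))) ?_ ?_
  · rintro ⟨l, q⟩ hx
    rw [Finset.mem_coe, Finset.mem_sigma] at hx
    exact (h l hx.1 q hx.2).2
  · rintro ⟨⟨t, c⟩, ⟨a, b⟩⟩ hx ⟨⟨t', c'⟩, ⟨a', b'⟩⟩ hy hxy
    rw [Finset.mem_coe, Finset.mem_sigma] at hx hy
    simp only [Prod.mk.injEq] at hxy
    obtain ⟨⟨rfl, rfl⟩, h1, h2⟩ := hxy
    have hne : a ≠ b := (h _ hx.1 _ hx.2).1
    have h3 : (t - t') * (a - b) = 0 := by linarith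
    rcases mul_eq_zero.1 h3 with h4 | h4
    · have h5 : t = t' := by linarith
      subst h5
      have h6 : c = c' := by linarith
      subst h6
      rfl
    · exact absurd (by linarith) hne

/-- The rank of `a`. -/
private noncomputable def rk (V : Finset ℝ) (a : ℝ) : ℕ := #{b ∈ V | b < a}

private lemma rk_mono (V : Finset ℝ) {a b : ℝ} (h : a ≤ b) : rk V a ≤ rk V b := by
  refine Finset.card_le_card fun x hx => ?_
  rw [Finset.mem_filter] at hx ⊢
  exact ⟨hx.1, lt_of_lt_of_le hx.2 h⟩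

private lemma rk_strict (V : Finset ℝ) {a b : ℝ} (ha : a ∈ V) (h : a < b) :
    rk V a < rk V b := by
  refine Finset.card_lt_card (Finset.ssubset_iff_subset_ne.2 ⟨fun x hx => ?_, fun he => ?_⟩)
  · rw [Finset.mem_filter] at hx ⊢
    exact ⟨hx.1, lt_trans hx.2 h⟩
  · have h1 : a ∈ ({x ∈ V | x < b} : Finset ℝ) := Finset.mem_filter.2 ⟨ha, h⟩
    rw [← he, Finset.mem_filter] at h1
    exact lt_irrefl _ h1.2

private lemma rk_inj (V : Finset ℝ) {a b : ℝ} (ha : a ∈ V) (hb : b ∈ V)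
    (h : rk V a = rk V b) : a = b := by
  rcases lt_trichotomy a b with h1 | h1 | h1
  · exact absurd h (rk_strict V ha h1).ne
  · exact h1
  · exact absurd h (rk_strict V hb h1).ne'

private lemma rk_lt (V : Finset ℝ) {a : ℝ} (ha : a ∈ V) : rk V a < #V := by
  refine Finset.card_lt_card (Finset.ssubset_iff_subset_ne.2 ⟨Finset.filter_subset _ _, fun he => ?_⟩)
  rw [← he, Finset.mem_filter] at ha
  exact lt_irrefl _ ha.2

/-- The cell of `a`. -/
private noncomputable def gr (V : Finset ℝ) (r : ℕ) (a : ℝ) : ℕ := rk V a * r / #V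

private lemma gr_mono (V : Finset ℝ) (r : ℕ) {a b : ℝ} (h : a ≤ b) : gr V r a ≤ gr V r b :=
  Nat.div_le_div_right (Nat.mul_le_mul_right _ (rk_mono V h))

private lemma gr_lt (V : Finset ℝ) {r : ℕ} (hr : 1 ≤ r) {a : ℝ} (ha : a ∈ V) :
    gr V r a < r := by
  have hm : 0 < #V := Finset.card_pos.2 ⟨a, ha⟩
  unfold gr
  rw [Nat.div_lt_iff_lt_mul hm]
  have := rk_lt V ha
  nlinarith

/-- A cell has at most `2 m / r` elements. -/
private lemma cell_card (V : Finset ℝ) {r : ℕ} (hr : 1 ≤ r) (hrm : r ≤ #V) (g : ℕ) :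
    #{a ∈ V | gr V r a = g} * r ≤ 2 * #V := by
  have hm : 0 < #V := lt_of_lt_of_le hr hrm
  rcases Finset.eq_empty_or_nonempty {a ∈ V | gr V r a = g} with he | hne
  · rw [he]; simp
  obtain ⟨a0, ha0, hmin⟩ := Finset.exists_min_image _ (rk V) hne
  have h1 : #{a ∈ V | gr V r a = g} ≤ #(Finset.range ((#V - 1) / r + 1)) := by
    refine Finset.card_le_card_of_injOn (fun a => rk V a - rk V a0) ?_ ?_
    · intro a ha
      rw [Finset.mem_coe] at ha
      rw [Finset.mem_coe, Finset.mem_range, Nat.lt_succ_iff, Nat.le_div_iff_mul_le (by omega)]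
      have h2 := hmin a ha
      rw [Finset.mem_filter] at ha ha0
      have h3 : gr V r a = g := ha.2
      have h4 : gr V r a0 = g := ha0.2
      unfold gr at h3 h4
      have h5 : g * #V ≤ rk V a0 * r := by
        rw [← h4]; exact Nat.div_mul_le_self _ _
      have h6 : rk V a * r < (g + 1) * #V := by
        rw [← Nat.div_lt_iff_lt_mul hm, h3]
        exact Nat.lt_succ_self g
      show (rk V a - rk V a0) * r ≤ #V - 1
      rw [Nat.sub_mul]
      have h7 : (g + 1) * #V = g * #V + #V := by ring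
      omega
    · intro a ha b hb hab
      rw [Finset.mem_coe] at ha hb
      have h2 := hmin a ha
      have h3 := hmin b hb
      rw [Finset.mem_filter] at ha hb
      refine rk_inj V ha.1 hb.1 ?_
      have : rk V a - rk V a0 = rk V b - rk V a0 := hab
      omega
  rw [Finset.card_range] at h1
  have h8 : (#V - 1) / r * r ≤ #V - 1 := Nat.div_mul_le_self _ _
  calc #{a ∈ V | gr V r a = g} * r ≤ ((#V - 1) / r + 1) * r := Nat.mul_le_mul_right _ h1
    _ = (#V - 1) / r * r + r := by ring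
    _ ≤ 2 * #V := by omega

/-- The pairs in the same cell. -/
private noncomputable def GG (V : Finset ℝ) (r : ℕ) : Finset (ℝ × ℝ) :=
  (V ×ˢ V).filter (fun q => gr V r q.1 = gr V r q.2)

private lemma GG_card (V : Finset ℝ) {r : ℕ} (hr : 1 ≤ r) (hrm : r ≤ #V) :
    #(GG V r) * r ≤ 2 * #V ^ 2 := by
  have h1 : #(GG V r) = ∑ a ∈ V, #{b ∈ V | gr V r b = gr V r a} := by
    unfold GG
    rw [Finset.card_filter, Finset.sum_product]
    refine Finset.sum_congr rfl fun a _ => ?_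
    rw [Finset.card_filter]
    exact Finset.sum_congr rfl fun b _ => by simp only [eq_comm]
  rw [h1, Finset.sum_mul]
  calc ∑ a ∈ V, #{b ∈ V | gr V r b = gr V r a} * r ≤ ∑ _a ∈ V, 2 * #V :=
        Finset.sum_le_sum fun a _ => cell_card V hr hrm _
    _ = 2 * #V ^ 2 := by rw [Finset.sum_const, smul_eq_mul]; ring

/-- The number of ordered pairs in the same fibre. -/
private lemma fib_pairs {K : Finset ℝ} {J : ℕ} (F : ℝ → ℕ) (hF : ∀ a ∈ K, F a < J) :
    4 * #K ≤ #((K ×ˢ K).filter (fun q => F q.1 = F q.2)) + 4 * J := by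
  have h1 : #((K ×ˢ K).filter (fun q => F q.1 = F q.2)) =
      ∑ j ∈ Finset.range J, #{a ∈ K | F a = j} ^ 2 := by
    rw [Finset.card_eq_sum_card_fiberwise (f := fun q : ℝ × ℝ => F q.1) (t := Finset.range J)
      (fun q hq => by
        rw [Finset.mem_coe, Finset.mem_filter, Finset.mem_product] at hq
        rw [Finset.mem_coe, Finset.mem_range]
        exact hF _ hq.1.1)]
    refine Finset.sum_congr rfl fun j _ => ?_
    rw [sq, ← Finset.card_product]
    congr 1
    ext ⟨a, b⟩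
    simp only [Finset.mem_filter, Finset.mem_product]
    constructor
    · rintro ⟨⟨⟨ha, hb⟩, h⟩, h'⟩
      exact ⟨⟨ha, h'⟩, ⟨hb, by rw [← h, h']⟩⟩
    · rintro ⟨⟨ha, h⟩, ⟨hb, h'⟩⟩
      exact ⟨⟨⟨ha, hb⟩, by rw [h, h']⟩, h⟩
  have h2 : #K = ∑ j ∈ Finset.range J, #{a ∈ K | F a = j} :=
    Finset.card_eq_sum_card_fiberwise (fun a ha => by
      rw [Finset.mem_coe, Finset.mem_range]
      exact hF _ ha)
  rw [h1]
  have h3 : 4 * J = ∑ _j ∈ Finset.range J, 4 := by
    rw [Finset.sum_const, Finset.card_range, smul_eq_mul]; ring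
  rw [h3, ← Finset.sum_add_distrib]
  conv_lhs => rw [h2, Finset.mul_sum]
  refine Finset.sum_le_sum fun j _ => ?_
  generalize #{a ∈ K | F a = j} = x
  zify
  nlinarith [sq_nonneg ((x : ℤ) - 2)]

theorem hRich : StRich := by
  intro V L k hk hL
  rcases Finset.eq_empty_or_nonempty L with rfl | hne
  · simp
  obtain ⟨l0, hl0⟩ := hne
  have hkm : k ≤ #V := (hL l0 hl0).2.trans (Finset.card_filter_le _ _)
  rcases Nat.lt_or_ge k 4 with hk4 | hk4
  · -- few points on a line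
    have h1 : ∑ l ∈ L, #(({a ∈ V | l.1 * a + l.2 ∈ V} : Finset ℝ).offDiag) ≤
        #((V ×ˢ V) ×ˢ (V ×ˢ V)) := by
      refine count_le L _ _ fun l _ q hq => ?_
      rw [Finset.mem_offDiag, Finset.mem_filter, Finset.mem_filter] at hq
      obtain ⟨h2, h3, h4⟩ := hq
      refine ⟨h4, ?_⟩
      simp only [Finset.mem_product]
      exact ⟨⟨h2.1, h3.1⟩, ⟨h2.2, h3.2⟩⟩
    have h2 : ∑ _l ∈ L, 2 ≤ ∑ l ∈ L, #(({a ∈ V | l.1 * a + l.2 ∈ V} : Finset ℝ).offDiag) := by
      refine Finset.sum_le_sum fun l hl => ?_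
      rw [Finset.offDiag_card]
      have h3 : 2 ≤ #{a ∈ V | l.1 * a + l.2 ∈ V} := hk.trans (hL l hl).2
      have h4 : #{a ∈ V | l.1 * a + l.2 ∈ V} * 2 ≤
        #{a ∈ V | l.1 * a + l.2 ∈ V} * #{a ∈ V | l.1 * a + l.2 ∈ V} := Nat.mul_le_mul_left _ h3
      omega
    rw [Finset.sum_const, smul_eq_mul] at h2
    have h5 : #((V ×ˢ V) ×ˢ (V ×ˢ V)) = #V ^ 4 := by
      simp only [Finset.card_product]; ring
    rw [h5] at h1
    have h6 : k ^ 3 ≤ 3 ^ 3 := Nat.pow_le_pow_left (by omega) 3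
    calc #L * k ^ 3 ≤ #L * 3 ^ 3 := Nat.mul_le_mul_left _ h6
      _ ≤ 512 * #V ^ 4 := by omega
  · -- cells
    obtain ⟨r, hr⟩ : ∃ r, r = k / 4 := ⟨_, rfl⟩
    have hr1 : 1 ≤ r := by omega
    have hr4 : 4 * r ≤ k := by omega
    have hr8 : k ≤ 8 * r := by omega
    have hrm : r ≤ #V := by omega
    have h1 : ∑ l ∈ L, #((({a ∈ V | l.1 * a + l.2 ∈ V} ×ˢ {a ∈ V | l.1 * a + l.2 ∈ V} :
          Finset (ℝ × ℝ)).filter
          (fun q => gr V r q.1 + gr V r (l.1 * q.1 + l.2) =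
            gr V r q.2 + gr V r (l.1 * q.2 + l.2))).filter (fun q => q.1 ≠ q.2)) ≤
        #((GG V r) ×ˢ (GG V r)) := by
      refine count_le L _ _ fun l hl q hq => ?_
      rw [Finset.mem_filter, Finset.mem_filter, Finset.mem_product, Finset.mem_filter,
        Finset.mem_filter] at hq
      obtain ⟨⟨⟨h2, h3⟩, h4⟩, h5⟩ := hq
      refine ⟨h5, ?_⟩
      unfold GG
      simp only [Finset.mem_product, Finset.mem_filter]
      have ht := (hL l hl).1
      have h6 : gr V r q.1 = gr V r q.2 ∧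
          gr V r (l.1 * q.1 + l.2) = gr V r (l.1 * q.2 + l.2) := by
        rcases le_total q.1 q.2 with h7 | h7
        · have h8 : l.1 * q.1 + l.2 ≤ l.1 * q.2 + l.2 := by nlinarith
          have h9 := gr_mono V r h7
          have h10 := gr_mono V r h8
          omega
        · have h8 : l.1 * q.2 + l.2 ≤ l.1 * q.1 + l.2 := by nlinarith
          have h9 := gr_mono V r h7
          have h10 := gr_mono V r h8
          omega
      exact ⟨⟨⟨h2.1, h3.1⟩, h6.1⟩, ⟨⟨h2.2, h3.2⟩, h6.2⟩⟩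
    have h2 : ∑ _l ∈ L, k ≤ ∑ l ∈ L, #((({a ∈ V | l.1 * a + l.2 ∈ V} ×ˢ
          {a ∈ V | l.1 * a + l.2 ∈ V} : Finset (ℝ × ℝ)).filter
          (fun q => gr V r q.1 + gr V r (l.1 * q.1 + l.2) =
            gr V r q.2 + gr V r (l.1 * q.2 + l.2))).filter (fun q => q.1 ≠ q.2)) := by
      refine Finset.sum_le_sum fun l hl => ?_
      have hK : k ≤ #{a ∈ V | l.1 * a + l.2 ∈ V} := (hL l hl).2
      generalize hKd : ({a ∈ V | l.1 * a + l.2 ∈ V} : Finset ℝ) = K at hK
      have h3 := fib_pairs (K := K) (J := 2 * r - 1)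
        (fun a => gr V r a + gr V r (l.1 * a + l.2)) (fun a ha => by
          rw [← hKd, Finset.mem_filter] at ha
          have h4 := gr_lt V hr1 ha.1
          have h5 := gr_lt V hr1 ha.2
          show gr V r a + gr V r (l.1 * a + l.2) < 2 * r - 1
          omega)
      have h6 := Finset.card_filter_add_card_filter_not (s := (K ×ˢ K).filter
        (fun q => gr V r q.1 + gr V r (l.1 * q.1 + l.2) =
          gr V r q.2 + gr V r (l.1 * q.2 + l.2))) (fun q => q.1 ≠ q.2)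
      have h7 : #(((K ×ˢ K).filter
        (fun q => gr V r q.1 + gr V r (l.1 * q.1 + l.2) =
          gr V r q.2 + gr V r (l.1 * q.2 + l.2))).filter (fun q => ¬ q.1 ≠ q.2)) ≤ #K := by
        refine Finset.card_le_card_of_injOn (fun q => q.1) ?_ ?_
        · intro q hq
          rw [Finset.mem_coe, Finset.mem_filter, Finset.mem_filter, Finset.mem_product] at hq
          exact hq.1.1.1
        · intro q hq q' hq' hqq
          rw [Finset.mem_coe, Finset.mem_filter] at hq hq'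
          have e1 : q.1 = q.2 := not_not.1 hq.2
          have e2 : q'.1 = q'.2 := not_not.1 hq'.2
          have e3 : q.1 = q'.1 := hqq
          exact Prod.ext e3 (by rw [← e1, ← e2, e3])
      omega
    rw [Finset.sum_const, smul_eq_mul] at h2
    rw [Finset.card_product] at h1
    have h3 := h2.trans h1
    have h4 := GG_card V hr1 hrm
    generalize #(GG V r) = G at h3 h4
    have h5 : (G * r) ^ 2 ≤ (2 * #V ^ 2) ^ 2 := Nat.pow_le_pow_left h4 2
    have h6 : k ^ 2 ≤ (8 * r) ^ 2 := Nat.pow_le_pow_left hr8 2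
    calc #L * k ^ 3 = (#L * k) * k ^ 2 := by ring
      _ ≤ (G * G) * (8 * r) ^ 2 := Nat.mul_le_mul h3 h6
      _ = 64 * (G * r) ^ 2 := by ring
      _ ≤ 64 * (2 * #V ^ 2) ^ 2 := Nat.mul_le_mul_left _ h5
      _ = 256 * #V ^ 4 := by ring
      _ ≤ 512 * #V ^ 4 := Nat.mul_le_mul_right _ (by norm_num)

end Pool.Agent.Helper7.SR
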